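import Pool.Agent.Helper68.LM2.St

/-! # LM2, module SA: lower square function bound for dyadic martingales, `p > 2` -/

set_option autoImplicit false

open MeasureTheory Set Filter Topology
open scoped ENNReal RealInnerProductSpace

namespace Pool.Agent.Helper65.LM2

open Pool.Agent.Helper68.LM2 Pool.Agent.Helper68.LM

/-! ### Bounded measurable functions with bounded support -/

theorem B1_of {f : ℝ → ℝ} (hm : Measurable f) (K L : ℝ) (hK : ∀ x, |f x| ≤ K)
    (hL : ∀ x, L < |x| → f x = 0) : B1 f :=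
  ⟨hm, max K L, fun x => (hK x).trans (le_max_left _ _),
    fun x hx => hL x ((le_max_right _ _).trans_lt hx)⟩

theorem B1_sub {f g : ℝ → ℝ} (hf : B1 f) (hg : B1 g) : B1 (fun x => f x - g x) := by
  obtain ⟨hf1, K, hf2, hf3⟩ := hf
  obtain ⟨hg1, L, hg2, hg3⟩ := hg
  refine B1_of (hf1.sub hg1) (K + L) (max K L) (fun x => ?_) (fun x hx => ?_)
  · exact (abs_sub _ _).trans (add_le_add (hf2 x) (hg2 x))
  · rw [hf3 x ((le_max_left _ _).trans_lt hx), hg3 x ((le_max_right _ _).trans_lt hx), sub_zero]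

theorem B1_add {f g : ℝ → ℝ} (hf : B1 f) (hg : B1 g) : B1 (fun x => f x + g x) := by
  obtain ⟨hf1, K, hf2, hf3⟩ := hf
  obtain ⟨hg1, L, hg2, hg3⟩ := hg
  refine B1_of (hf1.add hg1) (K + L) (max K L) (fun x => ?_) (fun x hx => ?_)
  · exact (abs_add_le _ _).trans (add_le_add (hf2 x) (hg2 x))
  · rw [hf3 x ((le_max_left _ _).trans_lt hx), hg3 x ((le_max_right _ _).trans_lt hx), add_zero]

theorem B1_mul {f g : ℝ → ℝ} (hf : B1 f) (hg : B1 g) : B1 (fun x => f x * g x) := by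
  obtain ⟨hf1, K, hf2, hf3⟩ := hf
  obtain ⟨hg1, L, hg2, hg3⟩ := hg
  have hK : 0 ≤ K := (abs_nonneg _).trans (hf2 0)
  refine B1_of (hf1.mul hg1) (K * L) K (fun x => ?_) (fun x hx => ?_)
  · rw [abs_mul]
    exact mul_le_mul (hf2 x) (hg2 x) (abs_nonneg _) hK
  · rw [hf3 x hx, zero_mul]

theorem B1_sq {f : ℝ → ℝ} (hf : B1 f) : B1 (fun x => f x ^ 2) := by
  simpa only [sq] using B1_mul hf hf

theorem B1_zero : B1 (fun _ => 0) := B1_of measurable_const 0 0 (by simp) (by simp)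

theorem B1_sum {ι : Type} (s : Finset ι) (f : ι → ℝ → ℝ) (hf : ∀ i ∈ s, B1 (f i)) :
    B1 (fun x => ∑ i ∈ s, f i x) := by
  classical
  induction s using Finset.induction_on with
  | empty => simpa using B1_zero
  | insert i s hi ih =>
    simp only [Finset.sum_insert hi]
    exact B1_add (hf i (Finset.mem_insert_self i s)) (ih (fun j hj => hf j (Finset.mem_insert_of_mem hj)))

theorem B1_rpow {f : ℝ → ℝ} (hf : B1 f) (h0 : ∀ x, 0 ≤ f x) {s : ℝ} (hs : 0 < s) :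
    B1 (fun x => f x ^ s) := by
  obtain ⟨hf1, K, hf2, hf3⟩ := hf
  refine B1_of (hf1.pow_const s) (K ^ s) K (fun x => ?_) (fun x hx => ?_)
  · rw [abs_of_nonneg (Real.rpow_nonneg (h0 x) s)]
    exact Real.rpow_le_rpow (h0 x) ((le_abs_self _).trans (hf2 x)) hs.le
  · rw [hf3 x hx, Real.zero_rpow hs.ne']

theorem B1_indicator {f : ℝ → ℝ} (hf : B1 f) {S : Set ℝ} (hS : MeasurableSet S) :
    B1 (S.indicator f) := by
  obtain ⟨hf1, K, hf2, hf3⟩ := hf
  have hK : 0 ≤ K := (abs_nonneg _).trans (hf2 0)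
  refine B1_of (hf1.indicator hS) K K (fun x => ?_) (fun x hx => ?_)
  · by_cases hx : x ∈ S
    · rw [indicator_of_mem hx]
      exact hf2 x
    · rw [indicator_of_notMem hx, abs_zero]
      exact hK
  · by_cases hx2 : x ∈ S
    · rw [indicator_of_mem hx2]
      exact hf3 x hx
    · rw [indicator_of_notMem hx2]

theorem B1_int {f : ℝ → ℝ} (hf : B1 f) : Integrable f := by
  obtain ⟨hm, K, hK, hL⟩ := hf
  have hs : Function.support f ⊆ Icc (-K) K := by
    intro x hx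
    by_contra h
    apply hx
    apply hL
    rw [mem_Icc, not_and_or, not_le, not_le] at h
    rcases h with h | h
    · exact lt_of_lt_of_le (by linarith) (neg_le_abs x)
    · exact lt_of_lt_of_le h (le_abs_self x)
  rw [← integrableOn_iff_integrable_of_support_subset hs]
  exact Measure.integrableOn_of_bounded (M := K) (by simp) hm.aestronglyMeasurable
    (ae_of_all _ (fun x => by simpa using hK x))

/-! ### Pointwise inequalities -/

theorem young_aux {r : ℝ} (hr : 1 < r) {x y : ℝ} (hx : 0 ≤ x) (hy : 0 ≤ y) :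
    r * (y * x ^ (r - 1)) ≤ (r - 1) * x ^ r + y ^ r := by
  have hpq : r.HolderConjugate (r / (r - 1)) := Real.HolderConjugate.conjExponent hr
  have h1 := Real.young_inequality_of_nonneg hy (Real.rpow_nonneg hx (r - 1)) hpq
  have h2 : (x ^ (r - 1)) ^ (r / (r - 1)) = x ^ r := by
    rw [← Real.rpow_mul hx]
    congr 1
    field_simp [show r - 1 ≠ 0 by linarith]
  rw [h2] at h1
  have h3 : r * (y ^ r / r + x ^ r / (r / (r - 1))) = (r - 1) * x ^ r + y ^ r := by
    have : r - 1 ≠ 0 := by linarith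
    have : r ≠ 0 := by linarith
    field_simp
    ring
  have h4 := mul_le_mul_of_nonneg_left h1 (show 0 ≤ r by linarith)
  rw [h3] at h4
  exact h4

/-- the discrete integration by parts inequality -/
theorem power_le {r : ℝ} (hr : 1 < r) (J : ℕ) (x : ℕ → ℝ) (hx : ∀ j, 0 ≤ x j) :
    (∑ j ∈ Finset.range J, x j) ^ r ≤ r * ∑ n ∈ Finset.range J, (∑ j ∈ Finset.range (n + 1), x j) *
      ((∑ j ∈ Finset.Ico n J, x j) ^ (r - 1) - (∑ j ∈ Finset.Ico (n + 1) J, x j) ^ (r - 1)) := by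
  set A : ℕ → ℝ := fun n => ∑ j ∈ Finset.Ico n J, x j with hA
  have hA0 : ∀ n, 0 ≤ A n := fun n => Finset.sum_nonneg (fun j _ => hx j)
  have hAJ : A J = 0 := by simp [hA]
  have hAt : A 0 = ∑ j ∈ Finset.range J, x j := by simp [hA]
  have hr0 : r ≠ 0 := by linarith
  have hr1 : r - 1 ≠ 0 := by linarith
  have hT : ∀ n ∈ Finset.range J, (∑ j ∈ Finset.range (n + 1), x j) = A 0 - A (n + 1) := by
    intro n hn
    rw [Finset.mem_range] at hn
    have := Finset.sum_range_add_sum_Ico x (show n + 1 ≤ J by omega)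
    rw [hAt, ← this]
    simp only [hA]
    ring
  have h1 : ∑ n ∈ Finset.range J, (∑ j ∈ Finset.range (n + 1), x j) * (A n ^ (r - 1) - A (n + 1) ^ (r - 1))
      = A 0 * ∑ n ∈ Finset.range J, (A n ^ (r - 1) - A (n + 1) ^ (r - 1))
        - ∑ n ∈ Finset.range J, A (n + 1) * (A n ^ (r - 1) - A (n + 1) ^ (r - 1)) := by
    rw [Finset.mul_sum, ← Finset.sum_sub_distrib]
    apply Finset.sum_congr rfl
    intro n hn
    rw [hT n hn]
    ring
  have h2 : ∀ s : ℝ, s ≠ 0 → ∑ n ∈ Finset.range J, (A n ^ s - A (n + 1) ^ s) = A 0 ^ s := by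
    intro s hs
    rw [Finset.sum_range_sub' (fun n => A n ^ s) J, hAJ, Real.zero_rpow hs, sub_zero]
  have h3 : ∀ n, A (n + 1) * (A n ^ (r - 1) - A (n + 1) ^ (r - 1)) ≤ (r - 1) / r * (A n ^ r - A (n + 1) ^ r) := by
    intro n
    have hy := young_aux hr (hA0 n) (hA0 (n + 1))
    have h4 : A (n + 1) * A (n + 1) ^ (r - 1) = A (n + 1) ^ r := by
      rcases (hA0 (n + 1)).eq_or_lt with h0 | h0
      · rw [← h0, Real.zero_rpow hr0, zero_mul]
      · rw [← Real.rpow_one_add' (hA0 (n + 1)) (by linarith)]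
        congr 1
        ring
    have h5 : r * (A (n + 1) * (A n ^ (r - 1) - A (n + 1) ^ (r - 1))) ≤ r * ((r - 1) / r * (A n ^ r - A (n + 1) ^ r)) := by
      have e1 : r * ((r - 1) / r * (A n ^ r - A (n + 1) ^ r)) = (r - 1) * (A n ^ r - A (n + 1) ^ r) := by
        field_simp
      rw [e1, mul_sub, h4]
      linarith
    exact le_of_mul_le_mul_left h5 (by linarith)
  have h6 : ∑ n ∈ Finset.range J, A (n + 1) * (A n ^ (r - 1) - A (n + 1) ^ (r - 1)) ≤ (r - 1) / r * A 0 ^ r := by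
    rw [← h2 r hr0, Finset.mul_sum]
    exact Finset.sum_le_sum (fun n _ => h3 n)
  rw [h1, h2 (r - 1) hr1, ← hAt]
  have h7 : A 0 * A 0 ^ (r - 1) = A 0 ^ r := by
    rcases (hA0 0).eq_or_lt with h0 | h0
    · rw [← h0, Real.zero_rpow hr0, zero_mul]
    · rw [← Real.rpow_one_add' (hA0 0) (by linarith)]
      congr 1
      ring
  rw [h7]
  have h8 : r * (A 0 ^ r - (r - 1) / r * A 0 ^ r) = A 0 ^ r := by
    field_simp
    ring
  calc A 0 ^ r = r * (A 0 ^ r - (r - 1) / r * A 0 ^ r) := h8.symm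
    _ ≤ r * (A 0 ^ r - ∑ n ∈ Finset.range J, A (n + 1) * (A n ^ (r - 1) - A (n + 1) ^ (r - 1))) := by
        apply mul_le_mul_of_nonneg_left _ (by linarith)
        linarith

/-! ### Martingale differences -/

theorem D1_B1 (hEA : StEA) {h : ℝ → ℝ} (hh : B1 h) (m : ℤ) : B1 (D1 m h) := by
  obtain ⟨e1, e2, e3, e4, -⟩ := hEA
  exact B1_sub (e4 m h hh) (e4 (m + 1) h hh)

theorem D1_const (hEA : StEA) {h : ℝ → ℝ} {m : ℤ} {b c : ℝ} (hc : c ∈ cell m b) :
    D1 m h c = D1 m h b := by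
  obtain ⟨e1, e2, e3, e4, e5, -⟩ := hEA
  unfold D1
  rw [e5 m h b c hc, e5 (m + 1) h b c (e3 m (m + 1) b (by omega) hc)]

theorem real_cell (hEA : StEA) (m : ℤ) (b : ℝ) : volume.real (cell m b) = (2 : ℝ) ^ m := by
  obtain ⟨e1, e2, -⟩ := hEA
  rw [Measure.real, (e2 m b).2.2.1, ENNReal.toReal_ofReal (by positivity)]

theorem jensen1 (hEA : StEA) {h : ℝ → ℝ} (hh : B1 h) (m : ℤ) (b : ℝ) :
    E1 m h b ^ 2 ≤ E1 m (fun y => h y ^ 2) b := by
  have hV := real_cell hEA m b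
  have hms := (hEA.2.1 m b).1
  have hfin : volume (cell m b) ≠ ∞ := by
    rw [(hEA.2.1 m b).2.2.1]
    exact ENNReal.ofReal_ne_top
  have hpos : (0 : ℝ) < (2 : ℝ) ^ m := by positivity
  set V : ℝ := (2 : ℝ) ^ m with hVd
  set c : ℝ := E1 m h b with hc
  have hc2 : ∫ y in cell m b, h y = V * c := by
    rw [hc, E1, ← hVd]
    field_simp
  have i1 : IntegrableOn h (cell m b) := (B1_int hh).integrableOn
  have i2 : IntegrableOn (fun y => h y ^ 2) (cell m b) := (B1_int (B1_sq hh)).integrableOn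
  have i3 : IntegrableOn (fun _ : ℝ => c ^ 2) (cell m b) := integrableOn_const (hs := hfin) (hC := by simp)
  have h0 : 0 ≤ ∫ y in cell m b, (h y - c) ^ 2 := integral_nonneg (fun y => sq_nonneg _)
  have h1 : ∫ y in cell m b, (h y - c) ^ 2 = (∫ y in cell m b, h y ^ 2) - V * c ^ 2 := by
    have e : (fun y => (h y - c) ^ 2) = fun y => (h y ^ 2 - (2 * c) * h y) + c ^ 2 := by
      funext y
      ring
    have i4 : Integrable (fun y => (2 * c) * h y) (volume.restrict (cell m b)) := i1.const_mul _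
    have i5 : Integrable (fun y => h y ^ 2 - (2 * c) * h y) (volume.restrict (cell m b)) := i2.sub i4
    rw [e, integral_add i5 i3, integral_sub i2 i4,
      integral_const_mul, hc2, setIntegral_const, hV, smul_eq_mul]
    ring
  rw [h1] at h0
  rw [E1, ← hVd]
  rw [inv_mul_eq_div, le_div_iff₀ hpos]
  linarith

theorem E_le_Mx (hEA : StEA) {g : ℝ → ℝ} (hg : B1 g) (h0 : ∀ x, 0 ≤ g x) (m : ℤ) (b : ℝ) :
    ENNReal.ofReal (E1 m g b) ≤ Mx (fun x => ENNReal.ofReal (g x)) b := by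
  have hpos : (0 : ℝ) < (2 : ℝ) ^ m := by positivity
  rw [E1, ENNReal.ofReal_mul (by positivity), ofReal_integral_eq_lintegral_ofReal (B1_int hg).integrableOn
    (ae_of_all _ h0)]
  have h1 : ∫⁻ y in cell m b, ENNReal.ofReal (g y) ≤
      ∫⁻ s in Icc (-((2 : ℝ) ^ m)) ((2 : ℝ) ^ m), ENNReal.ofReal (g (b + s)) := by
    have h2 := (measurePreserving_add_left volume b).setLIntegral_comp_preimage_emb
      (measurableEmbedding_addLeft b) (fun y => ENNReal.ofReal (g y)) (Icc (b - (2 : ℝ) ^ m) (b + (2 : ℝ) ^ m))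
    have h3 : (fun x => b + x) ⁻¹' Icc (b - (2 : ℝ) ^ m) (b + (2 : ℝ) ^ m) = Icc (-((2 : ℝ) ^ m)) ((2 : ℝ) ^ m) := by
      rw [Set.preimage_const_add_Icc]
      congr 1 <;> ring
    rw [h3] at h2
    rw [h2]
    exact lintegral_mono_set (hEA.2.1 m b).2.2.2
  have h4 : ((2 : ℝ) ^ m)⁻¹ = (2 : ℝ) ^ (-m) := by rw [zpow_neg]
  rw [h4]
  unfold Mx
  exact (mul_le_mul_right h1 _).trans (le_iSup (fun i : ℤ => ENNReal.ofReal ((2 : ℝ) ^ (-i)) *
    ∫⁻ s in Icc (-((2 : ℝ) ^ i)) ((2 : ℝ) ^ i), ENNReal.ofReal (g (b + s))) m)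

theorem ind_const (hEA : StEA) {m M : ℤ} (hm : m ≤ M) (b x y : ℝ) (hy : y ∈ cell m x) :
    (cell M b).indicator (fun _ => (1 : ℝ)) y = (cell M b).indicator (fun _ => (1 : ℝ)) x := by
  obtain ⟨e1, e2, e3, -⟩ := hEA
  have hyx : y ∈ cell M x := e3 m M x hm hy
  have hc : cell M y = cell M x := e1 M x y hyx
  have hiff : y ∈ cell M b ↔ x ∈ cell M b := by
    constructor
    · intro h
      rw [← e1 M b y h, hc]
      exact (e2 M x).2.1
    · intro h
      rw [← e1 M b x h, ← hc]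
      exact (e2 M y).2.1
  by_cases h : x ∈ cell M b
  · rw [indicator_of_mem h, indicator_of_mem (hiff.2 h)]
  · rw [indicator_of_notMem h, indicator_of_notMem (fun h' => h (hiff.1 h'))]

theorem E_ind (hEA : StEA) {h : ℝ → ℝ} (hh : B1 h) {m M : ℤ} (hm : m ≤ M) (b y : ℝ) :
    E1 m ((cell M b).indicator h) y = (cell M b).indicator (E1 m h) y := by
  have hms : MeasurableSet (cell M b) := (hEA.2.1 M b).1
  have hone : B1 ((cell M b).indicator (fun _ => (1 : ℝ))) := by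
    refine B1_of (measurable_const.indicator hms) 1 (|b| + (2 : ℝ) ^ M) (fun x => ?_) (fun x hx => ?_)
    · by_cases hx : x ∈ cell M b
      · rw [indicator_of_mem hx]
        simp
      · rw [indicator_of_notMem hx]
        simp
    · apply indicator_of_notMem
      intro hx2
      have h3 := (hEA.2.1 M b).2.2.2 hx2
      rw [mem_Icc] at h3
      have h4 : |x| ≤ |b| + (2 : ℝ) ^ M := by
        rw [abs_le]
        constructor
        · linarith [neg_abs_le b]
        · linarith [le_abs_self b]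
      linarith
  obtain ⟨e1, e2, e3, e4, e5, e6, e7, e8, e9, e10, e11, e12, e13, e14⟩ := hEA
  have h1 := (e13 m h _ y hh hone (fun x z hz => ind_const
    ⟨e1, e2, e3, e4, e5, e6, e7, e8, e9, e10, e11, e12, e13, e14⟩ hm b x z hz)).2
  have h2 : (cell M b).indicator h = fun z => (cell M b).indicator (fun _ => (1 : ℝ)) z * h z := by
    funext z
    by_cases hz : z ∈ cell M b
    · rw [indicator_of_mem hz, indicator_of_mem hz, one_mul]
    · rw [indicator_of_notMem hz, indicator_of_notMem hz, zero_mul]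
  rw [h2, h1]
  by_cases hz : y ∈ cell M b
  · rw [indicator_of_mem hz, indicator_of_mem hz, one_mul]
  · rw [indicator_of_notMem hz, indicator_of_notMem hz, zero_mul]

theorem bessel1 (hEA : StEA) (hORT : StORT) {h : ℝ → ℝ} (hh : B1 h) (a : ℤ) (n : ℕ) (b : ℝ) :
    E1 (a + n) (fun y => ∑ j ∈ Finset.range n, D1 (a + j) h y ^ 2) b ≤ E1 (a + n) (fun y => h y ^ 2) b := by
  have hms : MeasurableSet (cell (a + n) b) := (hEA.2.1 (a + n) b).1
  set K := cell (a + n) b with hK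
  have hg : B1 (K.indicator h) := B1_indicator hh hms
  have hD : ∀ j ∈ Finset.range n, ∀ y, D1 (a + j) (K.indicator h) y = K.indicator (D1 (a + j) h) y := by
    intro j hj y
    rw [Finset.mem_range] at hj
    have h1 := E_ind hEA hh (m := a + j) (M := a + n) (by omega) b y
    have h2 := E_ind hEA hh (m := a + j + 1) (M := a + n) (by omega) b y
    unfold D1
    rw [hK, h1, h2]
    by_cases hy : y ∈ cell (a + n) b
    · rw [indicator_of_mem hy, indicator_of_mem hy, indicator_of_mem hy]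
    · rw [indicator_of_notMem hy, indicator_of_notMem hy, indicator_of_notMem hy, sub_zero]
  have h1 := hORT.2.1 (K.indicator h) hg
  have hinj : Function.Injective (fun j : ℕ => a + (j : ℤ)) := fun i j hij => by
    simp only at hij
    omega
  have h2 : ∑ j ∈ Finset.range n, ∫⁻ y, ‖D1 (a + j) (K.indicator h) y‖ₑ ^ 2 ≤
      ∑' m : ℤ, ∫⁻ y, ‖D1 m (K.indicator h) y‖ₑ ^ 2 := by
    have h3 := ENNReal.sum_le_tsum (f := fun m : ℤ => ∫⁻ y, ‖D1 m (K.indicator h) y‖ₑ ^ 2)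
      ((Finset.range n).map ⟨fun j : ℕ => a + (j : ℤ), hinj⟩)
    rw [Finset.sum_map] at h3
    exact h3
  have hsq : ∀ x : ℝ, ‖x‖ₑ ^ 2 = ENNReal.ofReal (x ^ 2) := by
    intro x
    rw [← ofReal_norm, ← ENNReal.ofReal_pow (norm_nonneg _), Real.norm_eq_abs, sq_abs]
  have h4 : ∑ j ∈ Finset.range n, ∫⁻ y, ‖D1 (a + j) (K.indicator h) y‖ₑ ^ 2 =
      ∫⁻ y in K, ENNReal.ofReal (∑ j ∈ Finset.range n, D1 (a + j) h y ^ 2) := by
    have h5 : ∀ y, ENNReal.ofReal (∑ j ∈ Finset.range n, D1 (a + j) h y ^ 2) =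
        ∑ j ∈ Finset.range n, ENNReal.ofReal (D1 (a + j) h y ^ 2) := fun y =>
      ENNReal.ofReal_sum_of_nonneg (fun j _ => sq_nonneg _)
    simp only [h5]
    rw [lintegral_finsetSum _ (fun (j : ℕ) _ => ((D1_B1 hEA hh (a + (j : ℤ))).1.pow_const 2).ennreal_ofReal)]
    apply Finset.sum_congr rfl
    intro j hj
    rw [← lintegral_indicator hms]
    apply lintegral_congr
    intro y
    rw [hD j hj y]
    by_cases hy : y ∈ K
    · rw [indicator_of_mem hy, indicator_of_mem hy, hsq]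
    · rw [indicator_of_notMem hy, indicator_of_notMem hy, enorm_zero]
      simp
  have h6 : ∫⁻ y, ‖K.indicator h y‖ₑ ^ 2 = ∫⁻ y in K, ENNReal.ofReal (h y ^ 2) := by
    rw [← lintegral_indicator hms]
    apply lintegral_congr
    intro y
    by_cases hy : y ∈ K
    · rw [indicator_of_mem hy, indicator_of_mem hy, hsq]
    · rw [indicator_of_notMem hy, indicator_of_notMem hy, enorm_zero]
      simp
  rw [h4] at h2
  rw [h6] at h1
  have h7 := h2.trans h1
  have iT : IntegrableOn (fun y => ∑ j ∈ Finset.range n, D1 (a + j) h y ^ 2) K :=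
    (B1_int (B1_sum _ _ (fun (j : ℕ) _ => B1_sq (D1_B1 hEA hh (a + (j : ℤ)))))).integrableOn
  have ih : IntegrableOn (fun y => h y ^ 2) K := (B1_int (B1_sq hh)).integrableOn
  rw [← ofReal_integral_eq_lintegral_ofReal iT (ae_of_all _ (fun y => Finset.sum_nonneg (fun j _ => sq_nonneg _))),
    ← ofReal_integral_eq_lintegral_ofReal ih (ae_of_all _ (fun y => sq_nonneg _)),
    ENNReal.ofReal_le_ofReal_iff (integral_nonneg (fun y => sq_nonneg _))] at h7
  unfold E1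
  exact mul_le_mul_of_nonneg_left h7 (by positivity)

theorem ET_le (hEA : StEA) (hORT : StORT) {h : ℝ → ℝ} (hh : B1 h) (a : ℤ) (n : ℕ) (b : ℝ) :
    ENNReal.ofReal (E1 (a + n) (fun y => ∑ j ∈ Finset.range (n + 1), D1 (a + j) h y ^ 2) b) ≤
      5 * Mx (fun x => ENNReal.ofReal (h x ^ 2)) b := by
  have hB : ∀ j : ℕ, B1 (fun y => D1 (a + j) h y ^ 2) := fun j => B1_sq (D1_B1 hEA hh (a + j))
  have h1 : E1 (a + n) (fun y => ∑ j ∈ Finset.range (n + 1), D1 (a + j) h y ^ 2) b =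
      E1 (a + n) (fun y => ∑ j ∈ Finset.range n, D1 (a + j) h y ^ 2) b + D1 (a + n) h b ^ 2 := by
    have h2 : (fun y => ∑ j ∈ Finset.range (n + 1), D1 (a + j) h y ^ 2) =
        fun y => (∑ j ∈ Finset.range n, D1 (a + j) h y ^ 2) + D1 (a + n) h y ^ 2 := by
      funext y
      rw [Finset.sum_range_succ]
    rw [h2]
    have hEA' := hEA
    obtain ⟨e1, e2, e3, e4, e5, e6, e7, e8, e9, e10, e11, e12, e13, e14⟩ := hEA'
    rw [e6 (a + n) _ _ b (B1_sum _ _ (fun j _ => hB j)) (hB n)]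
    congr 1
    exact (e13 (a + n) _ _ b (hB n) (hB n) (fun x y hy => by
      rw [D1_const hEA hy])).1
  have h3 := bessel1 hEA hORT hh a n b
  have j1 := jensen1 hEA hh (a + n) b
  have j2 := jensen1 hEA hh (a + n + 1) b
  have m1 := E_le_Mx hEA (B1_sq hh) (fun x => sq_nonneg _) (a + n) b
  have m2 := E_le_Mx hEA (B1_sq hh) (fun x => sq_nonneg _) (a + n + 1) b
  set x := E1 (a + n) (fun y => h y ^ 2) b with hx
  set y := E1 (a + n + 1) (fun y => h y ^ 2) b with hy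
  have x0 : 0 ≤ x := (sq_nonneg _).trans j1
  have y0 : 0 ≤ y := (sq_nonneg _).trans j2
  have h4 : D1 (a + n) h b ^ 2 ≤ 2 * x + 2 * y := by
    unfold D1
    nlinarith [sq_nonneg (E1 (a + n) h b + E1 (a + n + 1) h b)]
  have h5 : E1 (a + n) (fun y => ∑ j ∈ Finset.range (n + 1), D1 (a + j) h y ^ 2) b ≤ 3 * x + 2 * y := by
    rw [h1]
    linarith
  calc ENNReal.ofReal (E1 (a + n) (fun y => ∑ j ∈ Finset.range (n + 1), D1 (a + j) h y ^ 2) b)
      ≤ ENNReal.ofReal (3 * x + 2 * y) := ENNReal.ofReal_le_ofReal h5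
    _ = 3 * ENNReal.ofReal x + 2 * ENNReal.ofReal y := by
        rw [ENNReal.ofReal_add (by positivity) (by positivity), ENNReal.ofReal_mul (by norm_num),
          ENNReal.ofReal_mul (by norm_num)]
        norm_num
    _ ≤ 3 * Mx (fun x => ENNReal.ofReal (h x ^ 2)) b + 2 * Mx (fun x => ENNReal.ofReal (h x ^ 2)) b := by
        gcongr
    _ = 5 * Mx (fun x => ENNReal.ofReal (h x ^ 2)) b := by
        rw [← add_mul]
        norm_num

/-- absorbing the power -/
theorem absorb {r : ℝ} (hr : 1 < r) {X Y c : ℝ≥0∞} (hX : X ≠ ∞)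
    (h : X ≤ c * (Y ^ (1 / r) * X ^ (1 / (r / (r - 1))))) : X ≤ c ^ r * Y := by
  have hr0 : 0 < r := by linarith
  rcases eq_or_ne X 0 with h0 | h0
  · rw [h0]
    exact zero_le
  have e1 : 1 / r + 1 / (r / (r - 1)) = 1 := by
    have : r - 1 ≠ 0 := by linarith
    field_simp
    ring
  have e2 : X = X ^ (1 / r) * X ^ (1 / (r / (r - 1))) := by
    rw [← ENNReal.rpow_add _ _ h0 hX, e1, ENNReal.rpow_one]
  have hq : 0 ≤ 1 / (r / (r - 1)) := by
    have : 0 < r - 1 := by linarith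
    positivity
  have h1 : X ^ (1 / (r / (r - 1))) ≠ 0 := by
    intro h
    rcases ENNReal.rpow_eq_zero_iff.1 h with h | h
    · exact h0 h.1
    · exact hX h.1
  have h2 : X ^ (1 / (r / (r - 1))) ≠ ∞ := ENNReal.rpow_ne_top_of_nonneg hq hX
  have h3 : X ^ (1 / r) * X ^ (1 / (r / (r - 1))) ≤ (c * Y ^ (1 / r)) * X ^ (1 / (r / (r - 1))) := by
    rw [← e2, mul_assoc]
    exact h
  have h4 : X ^ (1 / r) ≤ c * Y ^ (1 / r) := (ENNReal.mul_le_mul_iff_left h1 h2).1 h3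
  have h5 := ENNReal.rpow_le_rpow h4 hr0.le
  rw [ENNReal.mul_rpow_of_nonneg _ _ hr0.le, ← ENNReal.rpow_mul, ← ENNReal.rpow_mul,
    one_div_mul_cancel hr0.ne', ENNReal.rpow_one, ENNReal.rpow_one] at h5
  exact h5

theorem trunc (hEA : StEA) (hORT : StORT) {r : ℝ} (hr : 1 < r) {C : ℝ}
    (hC : ∀ f : ℝ → ℝ≥0∞, Measurable f → Measurable (Mx f) ∧
      ∫⁻ x, Mx f x ^ r ≤ ENNReal.ofReal C * ∫⁻ x, f x ^ r)
    {h : ℝ → ℝ} (hh : B1 h) (a : ℤ) (J : ℕ) :
    ∫⁻ b, ENNReal.ofReal (∑ j ∈ Finset.range J, D1 (a + j) h b ^ 2) ^ r ≤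
      ENNReal.ofReal (5 * r) ^ r * (ENNReal.ofReal C * ∫⁻ b, ENNReal.ofReal (h b ^ 2) ^ r) := by
  have hr0 : 0 < r := by linarith
  have hr1 : 0 < r - 1 := by linarith
  set d2 : ℕ → ℝ → ℝ := fun j b => D1 (a + j) h b ^ 2 with hd2
  have hd : ∀ j, B1 (d2 j) := fun j => B1_sq (D1_B1 hEA hh (a + (j : ℤ)))
  have hd0 : ∀ j b, 0 ≤ d2 j b := fun j b => sq_nonneg _
  set A : ℕ → ℝ → ℝ := fun n b => ∑ j ∈ Finset.Ico n J, d2 j b with hA
  have hAB : ∀ n, B1 (A n) := fun n => B1_sum _ _ (fun j _ => hd j)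
  have hA0 : ∀ n b, 0 ≤ A n b := fun n b => Finset.sum_nonneg (fun j _ => hd0 j b)
  have hA00 : ∀ b, A 0 b = ∑ j ∈ Finset.range J, d2 j b := fun b => by simp [hA]
  set T : ℕ → ℝ → ℝ := fun n b => ∑ j ∈ Finset.range (n + 1), d2 j b with hT
  have hTB : ∀ n, B1 (T n) := fun n => B1_sum _ _ (fun j _ => hd j)
  have hT0 : ∀ n b, 0 ≤ T n b := fun n b => Finset.sum_nonneg (fun j _ => hd0 j b)
  set w : ℕ → ℝ → ℝ := fun n b => A n b ^ (r - 1) - A (n + 1) b ^ (r - 1) with hw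
  have hwB : ∀ n, B1 (w n) := fun n => B1_sub (B1_rpow (hAB n) (hA0 n) hr1) (B1_rpow (hAB (n + 1)) (hA0 (n + 1)) hr1)
  have hw0 : ∀ n b, 0 ≤ w n b := by
    intro n b
    have h1 : A (n + 1) b ≤ A n b := by
      simp only [hA]
      exact Finset.sum_le_sum_of_subset_of_nonneg (Finset.Ico_subset_Ico_left (by omega))
        (fun j _ _ => hd0 j b)
    have h2 := Real.rpow_le_rpow (hA0 (n + 1) b) h1 hr1.le
    simp only [hw]
    linarith
  have hAc : ∀ n k : ℕ, k ≤ n → ∀ x y : ℝ, y ∈ cell (a + k) x → A n y = A n x := by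
    intro n k hk x y hy
    simp only [hA]
    apply Finset.sum_congr rfl
    intro j hj
    rw [Finset.mem_Ico] at hj
    simp only [hd2]
    rw [D1_const hEA (hEA.2.2.1 (a + k) (a + j) x (by omega) hy)]
  have hwc : ∀ n : ℕ, ∀ x, ∀ y ∈ cell (a + n) x, w n y = w n x := by
    intro n x y hy
    simp only [hw]
    rw [hAc n n le_rfl x y hy, hAc (n + 1) n (by omega) x y hy]
  set H : ℝ → ℝ≥0∞ := Mx (fun x => ENNReal.ofReal (h x ^ 2)) with hH
  obtain ⟨hHm, hHr⟩ := hC (fun x => ENNReal.ofReal (h x ^ 2)) (B1_sq hh).1.ennreal_ofReal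
  have hE0 : ∀ (n : ℕ) (b : ℝ), 0 ≤ E1 (a + n) (T n) b := by
    intro n b
    unfold E1
    exact mul_nonneg (by positivity) (integral_nonneg (fun y => hT0 n y))
  have s1 : ∀ n : ℕ, ∫ b, T n b * w n b = ∫ b, E1 (a + n) (T n) b * w n b := by
    intro n
    obtain ⟨e1, e2, e3, e4, e5, e6, e7, e8, e9, e10, e11, e12, e13, e14⟩ := hEA
    rw [e12 (a + n) (T n) (w n) (hTB n) (hwB n)]
    apply integral_congr_ae
    refine ae_of_all _ (fun b => ?_)
    simp only
    rw [(e13 (a + n) (w n) (w n) b (hwB n) (hwB n) (hwc n)).1]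
  have s2 : ∀ n : ℕ, ∫⁻ b, ENNReal.ofReal (T n b * w n b) ≤ 5 * ∫⁻ b, H b * ENNReal.ofReal (w n b) := by
    intro n
    have hEB : B1 (E1 (a + n) (T n)) := hEA.2.2.2.1 (a + n) (T n) (hTB n)
    have hm : Measurable (fun b => H b * ENNReal.ofReal (w n b)) := hHm.mul (hwB n).1.ennreal_ofReal
    rw [← ofReal_integral_eq_lintegral_ofReal (B1_int (B1_mul (hTB n) (hwB n)))
      (ae_of_all _ (fun b => mul_nonneg (hT0 n b) (hw0 n b))), s1 n,
      ofReal_integral_eq_lintegral_ofReal (B1_int (B1_mul hEB (hwB n)))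
      (ae_of_all _ (fun b => mul_nonneg (hE0 n b) (hw0 n b))),
      ← lintegral_const_mul _ hm]
    apply lintegral_mono
    intro b
    show ENNReal.ofReal (E1 (a + n) (T n) b * w n b) ≤ 5 * (H b * ENNReal.ofReal (w n b))
    rw [ENNReal.ofReal_mul (hE0 n b), ← mul_assoc]
    have h1 := ET_le hEA hORT hh a n b
    gcongr
  have hwsum : ∀ b, ∑ n ∈ Finset.range J, w n b = A 0 b ^ (r - 1) := by
    intro b
    have hAJ : A J b = 0 := by simp [hA]
    simp only [hw]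
    rw [Finset.sum_range_sub' (fun n => A n b ^ (r - 1)) J, hAJ, Real.zero_rpow hr1.ne', sub_zero]
  set X : ℝ≥0∞ := ∫⁻ b, ENNReal.ofReal (A 0 b) ^ r with hX
  have s3 : X ≤ ENNReal.ofReal r * ∑ n ∈ Finset.range J, ∫⁻ b, ENNReal.ofReal (T n b * w n b) := by
    have hm : ∀ n ∈ Finset.range J, Measurable (fun b => ENNReal.ofReal (T n b * w n b)) :=
      fun n _ => ((hTB n).1.mul (hwB n).1).ennreal_ofReal
    rw [← lintegral_finsetSum _ hm, ← lintegral_const_mul _ (Finset.measurable_sum _ hm)]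
    apply lintegral_mono
    intro b
    show ENNReal.ofReal (A 0 b) ^ r ≤ ENNReal.ofReal r * ∑ n ∈ Finset.range J, ENNReal.ofReal (T n b * w n b)
    rw [← ENNReal.ofReal_sum_of_nonneg (fun n _ => mul_nonneg (hT0 n b) (hw0 n b)),
      ← ENNReal.ofReal_mul hr0.le, ENNReal.ofReal_rpow_of_nonneg (hA0 0 b) hr0.le]
    apply ENNReal.ofReal_le_ofReal
    rw [hA00 b]
    exact power_le hr J (fun j => d2 j b) (fun j => hd0 j b)
  have s4 : ∑ n ∈ Finset.range J, ∫⁻ b, H b * ENNReal.ofReal (w n b) =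
      ∫⁻ b, (H * fun b => ENNReal.ofReal (A 0 b) ^ (r - 1)) b := by
    have hm : ∀ n ∈ Finset.range J, Measurable (fun b => H b * ENNReal.ofReal (w n b)) :=
      fun n _ => hHm.mul (hwB n).1.ennreal_ofReal
    rw [← lintegral_finsetSum _ hm]
    apply lintegral_congr
    intro b
    rw [← Finset.mul_sum, ← ENNReal.ofReal_sum_of_nonneg (fun n _ => hw0 n b), hwsum b,
      ← ENNReal.ofReal_rpow_of_nonneg (hA0 0 b) hr1.le]
    rfl
  have hAm : Measurable (fun b => ENNReal.ofReal (A 0 b)) := (hAB 0).1.ennreal_ofReal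
  have hpq : r.HolderConjugate (r / (r - 1)) := Real.HolderConjugate.conjExponent hr
  have s5 := ENNReal.lintegral_mul_le_Lp_mul_Lq volume hpq hHm.aemeasurable
    (hAm.pow_const (r - 1)).aemeasurable
  have s6 : ∫⁻ b, (ENNReal.ofReal (A 0 b) ^ (r - 1)) ^ (r / (r - 1)) = X := by
    apply lintegral_congr
    intro b
    rw [← ENNReal.rpow_mul]
    congr 1
    field_simp
  rw [s6] at s5
  have s7 : X ≤ ENNReal.ofReal (5 * r) * ((∫⁻ b, H b ^ r) ^ (1 / r) * X ^ (1 / (r / (r - 1)))) := by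
    calc X ≤ ENNReal.ofReal r * ∑ n ∈ Finset.range J, ∫⁻ b, ENNReal.ofReal (T n b * w n b) := s3
      _ ≤ ENNReal.ofReal r * ∑ n ∈ Finset.range J, 5 * ∫⁻ b, H b * ENNReal.ofReal (w n b) := by
          gcongr with n _
          exact s2 n
      _ = ENNReal.ofReal (5 * r) * ∑ n ∈ Finset.range J, ∫⁻ b, H b * ENNReal.ofReal (w n b) := by
          rw [← Finset.mul_sum, ENNReal.ofReal_mul (by norm_num : (0 : ℝ) ≤ 5), ← mul_assoc, ENNReal.ofReal_ofNat,
            mul_comm (ENNReal.ofReal r) 5]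
      _ ≤ ENNReal.ofReal (5 * r) * ((∫⁻ b, H b ^ r) ^ (1 / r) * X ^ (1 / (r / (r - 1)))) := by
          rw [s4]
          gcongr
  have hXf : X ≠ ∞ := by
    have h1 : X = ∫⁻ b, ENNReal.ofReal (A 0 b ^ r) := by
      apply lintegral_congr
      intro b
      rw [ENNReal.ofReal_rpow_of_nonneg (hA0 0 b) hr0.le]
    rw [h1, ← ofReal_integral_eq_lintegral_ofReal (B1_int (B1_rpow (hAB 0) (hA0 0) hr0))
      (ae_of_all _ (fun b => Real.rpow_nonneg (hA0 0 b) r))]
    exact ENNReal.ofReal_ne_top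
  have s8 := absorb hr hXf s7
  have s9 : ∫⁻ b, ENNReal.ofReal (∑ j ∈ Finset.range J, D1 (a + j) h b ^ 2) ^ r = X := by
    apply lintegral_congr
    intro b
    rw [hA00 b]
  rw [s9]
  refine s8.trans ?_
  gcongr

theorem hSA (hEA : StEA) (hORT : StORT) (hHLA : StHLA) : StSA := by
  intro p hp
  have hr : 1 < p / 2 := by linarith
  have hr0 : 0 < p / 2 := by linarith
  obtain ⟨C, hC0, hC, -⟩ := hHLA (p / 2) hr
  refine ⟨(5 * (p / 2)) ^ (p / 2) * C, by positivity, fun h hh => ?_⟩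
  have hsq : ∀ x : ℝ, ‖x‖ₑ ^ 2 = ENNReal.ofReal (x ^ 2) := by
    intro x
    rw [← ofReal_norm, ← ENNReal.ofReal_pow (norm_nonneg _), Real.norm_eq_abs, sq_abs]
  -- exhaustion of the levels
  have hinj : ∀ M : ℕ, Function.Injective (fun j : ℕ => -(M : ℤ) + (j : ℤ)) := fun M i j hij => by
    simp only at hij
    omega
  set t : ℕ → Finset ℤ := fun M => (Finset.range (2 * M + 1)).map ⟨fun j : ℕ => -(M : ℤ) + (j : ℤ), hinj M⟩ with ht
  have hmem : ∀ (M : ℕ) (m : ℤ), m ∈ t M ↔ (-(M : ℤ) ≤ m ∧ m ≤ M) := by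
    intro M m
    simp only [ht, Finset.mem_map, Finset.mem_range, Function.Embedding.coeFn_mk]
    constructor
    · rintro ⟨j, hj, rfl⟩
      constructor <;> omega
    · rintro ⟨h1, h2⟩
      refine ⟨(m + M).toNat, ?_, ?_⟩ <;> omega
  have hmono : Monotone t := by
    intro M N hMN m hm
    rw [hmem] at hm ⊢
    omega
  have htop : ∀ s : Finset ℤ, ∃ M, s ⊆ t M := by
    intro s
    refine ⟨s.sup Int.natAbs, fun m hm => ?_⟩
    rw [hmem]
    have := Finset.le_sup (f := Int.natAbs) hm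
    omega
  have hsum : ∀ b, ∑' m : ℤ, ‖D1 m h b‖ₑ ^ 2 = ⨆ M : ℕ, ∑ m ∈ t M, ‖D1 m h b‖ₑ ^ 2 := fun b =>
    ENNReal.tsum_eq_iSup_sum' t htop
  have hpow : ∀ b, (∑' m : ℤ, ‖D1 m h b‖ₑ ^ 2) ^ (p / 2) =
      ⨆ M : ℕ, (∑ m ∈ t M, ‖D1 m h b‖ₑ ^ 2) ^ (p / 2) := by
    intro b
    rw [hsum b]
    exact (ENNReal.orderIsoRpow (p / 2) hr0).map_iSup (fun M : ℕ => ∑ m ∈ t M, ‖D1 m h b‖ₑ ^ 2)
  have hmeas : ∀ M : ℕ, Measurable (fun b => (∑ m ∈ t M, ‖D1 m h b‖ₑ ^ 2) ^ (p / 2)) := by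
    intro M
    refine Measurable.pow_const (Finset.measurable_sum _ (fun m _ => ?_)) _
    exact (D1_B1 hEA hh m).1.enorm.pow_const 2
  calc ∫⁻ b, (∑' m : ℤ, ‖D1 m h b‖ₑ ^ 2) ^ (p / 2)
      = ∫⁻ b, ⨆ M : ℕ, (∑ m ∈ t M, ‖D1 m h b‖ₑ ^ 2) ^ (p / 2) := lintegral_congr hpow
    _ = ⨆ M : ℕ, ∫⁻ b, (∑ m ∈ t M, ‖D1 m h b‖ₑ ^ 2) ^ (p / 2) := by
        apply lintegral_iSup hmeas
        intro M N hMN b
        exact ENNReal.rpow_le_rpow (Finset.sum_le_sum_of_subset (hmono hMN)) hr0.le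
    _ ≤ ENNReal.ofReal ((5 * (p / 2)) ^ (p / 2) * C) * ∫⁻ b, ‖h b‖ₑ ^ p := by
        apply iSup_le
        intro M
        have h1 := trunc hEA hORT hr hC hh (-(M : ℤ)) (2 * M + 1)
        have h2 : ∫⁻ b, (∑ m ∈ t M, ‖D1 m h b‖ₑ ^ 2) ^ (p / 2) =
            ∫⁻ b, ENNReal.ofReal (∑ j ∈ Finset.range (2 * M + 1), D1 (-(M : ℤ) + j) h b ^ 2) ^ (p / 2) := by
          apply lintegral_congr
          intro b
          congr 1
          rw [ENNReal.ofReal_sum_of_nonneg (fun j _ => sq_nonneg _)]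
          simp only [ht, Finset.sum_map, Function.Embedding.coeFn_mk, hsq]
        rw [h2]
        refine h1.trans (le_of_eq ?_)
        have h3 : ∫⁻ b, ENNReal.ofReal (h b ^ 2) ^ (p / 2) = ∫⁻ b, ‖h b‖ₑ ^ p := by
          apply lintegral_congr
          intro b
          rw [← hsq, ← ENNReal.rpow_natCast, ← ENNReal.rpow_mul]
          congr 1
          push_cast
          ring
        rw [h3, ENNReal.ofReal_mul (show (0 : ℝ) ≤ (5 * (p / 2)) ^ (p / 2) by positivity),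
          ← ENNReal.ofReal_rpow_of_nonneg (by positivity) hr0.le, mul_assoc]

end Pool.Agent.Helper65.LM2
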